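import Mathlib
import Pool.Agent.Helper35.HG.StE

set_option autoImplicit false

namespace Helper60.HG

open Helper35.HG Helper35.HC Helper35.HSF Helper35.MS Helper35.PI Helper35.PI2 Helper32.CL
open scoped ContDiff Manifold Topology ENNReal BigOperators
open MeasureTheory Set Filter

lemma hd_sqrt {s y : ℝ} (h : 0 < 1 + s * y) :
    HasDerivAt (fun x => Real.sqrt (1 + s * x)) (s / (2 * Real.sqrt (1 + s * y))) y := by
  have h1 : HasDerivAt (fun x : ℝ => 1 + s * x) (s * 1) y :=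
    ((hasDerivAt_id' y).const_mul s).const_add 1
  have h2 := h1.sqrt h.ne'
  simpa using h2

lemma hd_inv {s y : ℝ} (h : 0 < 1 + s * y) :
    HasDerivAt (fun x => s / (2 * Real.sqrt (1 + s * x)))
      (-(s ^ 2 / (4 * Real.sqrt (1 + s * y) ^ 3))) y := by
  have hp : 0 < Real.sqrt (1 + s * y) := Real.sqrt_pos.mpr h
  have h1 := (hd_sqrt h).const_mul 2
  have h2 := (hasDerivAt_const y s).div h1 (by positivity)
  refine h2.congr_deriv ?_
  field_simp
  ring

lemma hd_inv3 {s y : ℝ} (h : 0 < 1 + s * y) :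
    HasDerivAt (fun x => s ^ 2 / (4 * Real.sqrt (1 + s * x) ^ 3))
      (-(3 * s ^ 3 / (8 * Real.sqrt (1 + s * y) ^ 5))) y := by
  have hp : 0 < Real.sqrt (1 + s * y) := Real.sqrt_pos.mpr h
  have h1 := ((hd_sqrt h).pow 3).const_mul 4
  have hne : (4 * Real.sqrt (1 + s * y) ^ 3 : ℝ) ≠ 0 := by positivity
  have h2 := (hasDerivAt_const y (s ^ 2)).div h1 hne
  refine h2.congr_deriv ?_
  simp only [Nat.cast_ofNat, Nat.add_one_sub_one, Pi.pow_apply]
  field_simp
  ring

lemma hd_hh {y : ℝ} (h : 0 < 1 + 13 / 4 * y) :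
    HasDerivAt hh (-(13 / 4 * hh y ^ 2)) y := by
  have h1 : HasDerivAt (fun x : ℝ => 1 + 13 / 4 * x) (13 / 4 * 1) y :=
    ((hasDerivAt_id' y).const_mul (13 / 4)).const_add 1
  have h2 := (hasDerivAt_const y (1 : ℝ)).div h1 h.ne'
  have h3 : hh = (fun x : ℝ => (1 : ℝ) / (1 + 13 / 4 * x)) := by funext x; rfl
  rw [h3]
  refine h2.congr_deriv ?_
  field_simp
  ring

lemma cd_sqrt {s y : ℝ} (h : 0 < 1 + s * y) :
    ContDiffAt ℝ 2 (fun x => Real.sqrt (1 + s * x)) y := by
  have h1 : ContDiffAt ℝ 2 (fun x : ℝ => 1 + s * x) y :=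
    contDiffAt_const.add (contDiffAt_const.mul contDiffAt_id)
  exact h1.sqrt h.ne'

lemma cd_hh {y : ℝ} (h : 0 < 1 + 13 / 4 * y) : ContDiffAt ℝ 2 hh y := by
  have h1 : ContDiffAt ℝ 2 (fun x : ℝ => 1 + 13 / 4 * x) y :=
    contDiffAt_const.add (contDiffAt_const.mul contDiffAt_id)
  have h2 : ContDiffAt ℝ 2 (fun x : ℝ => (1 : ℝ) / (1 + 13 / 4 * x)) y :=
    contDiffAt_const.div h1 h.ne'
  exact h2

lemma ev_pos {s x : ℝ} (h : 0 < 1 + s * x) : ∀ᶠ y in 𝓝 x, 0 < 1 + s * y := by
  have hc : ContinuousAt (fun y : ℝ => 1 + s * y) x := by fun_prop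
  exact hc.eventually (lt_mem_nhds h)

theorem hRG1 : StRG1 := by
  intro n hn x hx
  have hs : 0 ≤ sn n := by unfold sn; positivity
  have hpos : 0 < 1 + sn n * x := by
    have := mul_nonneg hs hx
    linarith
  have hpos2 : 0 < 1 + 13 / 4 * x := by positivity
  have hw : 0 < Real.sqrt (1 + sn n * x) := Real.sqrt_pos.mpr hpos
  have hw1 : 1 ≤ Real.sqrt (1 + sn n * x) := by
    rw [Real.one_le_sqrt]
    have := mul_nonneg hs hx
    linarith
  have hcs := cd_sqrt hpos
  have hch := cd_hh hpos2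
  have hcinv : ContDiffAt ℝ 2 (fun x => sn n / (2 * Real.sqrt (1 + sn n * x))) x :=
    contDiffAt_const.div (contDiffAt_const.mul hcs) (by positivity)
  refine ⟨⟨?_, ?_, ?_⟩, ⟨?_, ?_, ?_⟩, ⟨?_, ?_, ?_⟩, ?_, ?_, ?_, ?_, ?_, ?_⟩
  · -- J contDiff
    have h1 : ContDiffAt ℝ 2 (fun x => Jf x) x := by
      have : ContDiffAt ℝ 2
          (fun X : ℝ => 263 / 1000 + 23 / 100 * X + 17 / 100 * hh X) x :=
        (contDiffAt_const.add (contDiffAt_const.mul contDiffAt_id)).add
          (contDiffAt_const.mul hch)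
      exact this
    exact h1.sub (contDiffAt_const.mul (hcs.sub contDiffAt_const))
  · filter_upwards [ev_pos hpos, ev_pos hpos2] with y hy hy2
    have h1 : HasDerivAt (fun X : ℝ => 263 / 1000 + 23 / 100 * X + 17 / 100 * hh X)
        (23 / 100 * 1 + 17 / 100 * (-(13 / 4 * hh y ^ 2))) y :=
      (((hasDerivAt_id' y).const_mul (23 / 100)).const_add (263 / 1000)).add
        ((hd_hh hy2).const_mul (17 / 100))
    have h2 := h1.sub (((hd_sqrt hy).sub_const 1).const_mul (3 / 5))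
    refine HasDerivAt.congr_deriv h2 ?_
    simp only [pP]
    ring
  · have h1 := ((hd_hh hpos2).pow 2).const_mul (17 / 100 * (13 / 4))
    have h2 := ((hasDerivAt_const x (23 / 100 : ℝ)).sub h1).sub
      ((hd_inv hpos).const_mul (3 / 5))
    refine HasDerivAt.congr_deriv h2 ?_
    simp only [pP, Nat.cast_ofNat, Nat.add_one_sub_one]
    ring
  · exact contDiffAt_const.mul (hcs.sub contDiffAt_const)
  · filter_upwards [ev_pos hpos] with y hy
    exact ((hd_sqrt hy).sub_const 1).const_mul (3 / 10)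
  · have h2 := (hd_inv hpos).const_mul (3 / 10)
    refine HasDerivAt.congr_deriv h2 ?_
    simp only [pP]
    ring
  · exact contDiffAt_const.mul hcinv
  · filter_upwards [ev_pos hpos] with y hy
    have h2 := (hd_inv hy).const_mul (27 / 40)
    refine HasDerivAt.congr_deriv h2 ?_
    simp only [pP]
    ring
  · have h2 := ((hd_inv3 hpos).const_mul (27 / 40)).neg
    refine HasDerivAt.congr_deriv h2 ?_
    simp only [pP]
    ring
  · simp only [pP]; positivity
  · simp only [pP]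
    have : 0 ≤ 27 / 40 * (sn n ^ 2 / (4 * Real.sqrt (1 + sn n * x) ^ 3)) := by positivity
    linarith
  · simp only [pP]; positivity
  · simp only [pP]
    have : 0 ≤ Real.sqrt (1 + sn n * x) - 1 := by linarith
    positivity
  · simp only [pP]; positivity
  · simp only [pP]
    have : 0 ≤ 3 / 10 * (sn n ^ 2 / (4 * Real.sqrt (1 + sn n * x) ^ 3)) := by positivity
    linarith

end Helper60.HG
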